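import Mathlib

/-!
# The L(2,1)-labeling number of iterated Mycielski graphs
-/

namespace Pool.Agent.Results.MP_f0917b_co.MycielskiBound

open Finset

/-! ## Definitions -/

/-- `f` is an `L(2,1)`-labeling of `G`: labels of adjacent vertices differ by at least `2`, and
labels of vertices at distance exactly `2` are different. -/
def IsL21 {V : Type*} (G : SimpleGraph V) (f : V → ℕ) : Prop :=
  (∀ u v, G.Adj u v → f u + 2 ≤ f v ∨ f v + 2 ≤ f u) ∧
  (∀ u v, G.edist u v = 2 → f u ≠ f v)

/-- The `L(2,1)`-labeling number: the least `k` such that `G` has an `L(2,1)`-labeling with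
labels in `{0, …, k}`. -/
noncomputable def lam {V : Type*} (G : SimpleGraph V) : ℕ :=
  sInf {k | ∃ f : V → ℕ, IsL21 G f ∧ ∀ v, f v ≤ k}

/-- The Mycielski graph of `G`: `some (inl i)` is the vertex `u_i`, `some (inr i)` is the vertex
`u_i'`, and `none` is the vertex `w`. -/
def mycielski {V : Type*} (G : SimpleGraph V) : SimpleGraph (Option (V ⊕ V)) where
  Adj x y := match x, y with
    | some (Sum.inl i), some (Sum.inl j) => G.Adj i j
    | some (Sum.inl i), some (Sum.inr j) => G.Adj i j
    | some (Sum.inr i), some (Sum.inl j) => G.Adj i j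
    | some (Sum.inr _), none => True
    | none, some (Sum.inr _) => True
    | _, _ => False
  symm := ⟨by
    rintro (_ | _ | _) (_ | _ | _) h <;> first | exact h | exact G.symm h | exact h.symm⟩
  loopless := ⟨by
    rintro (_ | _ | _) h <;> first | exact h | exact G.loopless.irrefl _ h⟩

/-- The vertex type of the iterated Mycielski graph. -/
def MV (V : Type*) : ℕ → Type _
  | 0 => V
  | t + 1 => Option (MV V t ⊕ MV V t)

/-- The iterated Mycielski graph `M^t(G)` (with `M^0(G) = G`). -/
def iterM {V : Type*} (G : SimpleGraph V) : (t : ℕ) → SimpleGraph (MV V t)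
  | 0 => G
  | t + 1 => mycielski (iterM G t)

/-! ## Orderings without consecutive conflicts -/

section Order

variable {L : Type*}

/-- `f 0, …, f (m-1)` are distinct, start with `s` and consecutive ones are not adjacent. -/
def GoodOrder (R : SimpleGraph L) (m : ℕ) (s : L) (f : ℕ → L) : Prop :=
  (∀ i j, i < m → j < m → f i = f j → i = j) ∧ f 0 = s ∧ ∀ i, i + 1 < m → ¬ R.Adj (f i) (f (i + 1))

lemma step_aux [Fintype L] [DecidableEq L] (R R' : SimpleGraph L) [DecidableRel R.Adj] (m : ℕ)
    (s : L) (a b : L)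
    (hR : ∀ x y, R.Adj x y → R'.Adj x y ∨ (x = a ∧ y = b) ∨ (x = b ∧ y = a))
    (hdeg : R.degree a + R.degree b + 2 ≤ m) (f : ℕ → L) (hf : GoodOrder R' m s f)
    (k : ℕ) (hk : k + 1 < m) (hka : f k = a) (hkb : f (k + 1) = b) :
    ∃ g, GoodOrder R m s g := by
  obtain ⟨hinj, h0, hgood⟩ := hf
  have hold : ∀ j, j + 1 < m → j ≠ k → ¬ R.Adj (f j) (f (j + 1)) := by
    intro j hj hjk hadj
    rcases hR _ _ hadj with h | ⟨h1, h2⟩ | ⟨h1, h2⟩
    · exact hgood j hj h
    · exact hjk (hinj j k (by omega) (by omega) (by rw [h1, hka]))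
    · have e1 := hinj j (k + 1) (by omega) (by omega) (by rw [h1, hkb])
      have e2 := hinj (j + 1) k (by omega) (by omega) (by rw [h2, hka])
      omega
  -- the blocked positions
  set B1 := (range m).filter (fun i => R.Adj a (f i)) with hB1
  set B2 := (range m).filter (fun i => i + 1 < m ∧ R.Adj b (f (i + 1))) with hB2
  have c1 : B1.card ≤ R.degree a := by
    rw [← SimpleGraph.card_neighborFinset_eq_degree]
    apply Finset.card_le_card_of_injOn f
    · intro i hi
      have := (Finset.mem_filter.1 hi).2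
      simpa using this
    · intro i hi j hj hij
      have hi' := Finset.mem_range.1 (Finset.mem_filter.1 hi).1
      have hj' := Finset.mem_range.1 (Finset.mem_filter.1 hj).1
      exact hinj i j hi' hj' hij
  have c2 : B2.card ≤ R.degree b := by
    rw [← SimpleGraph.card_neighborFinset_eq_degree]
    apply Finset.card_le_card_of_injOn (fun i => f (i + 1))
    · intro i hi
      have := (Finset.mem_filter.1 hi).2.2
      simpa using this
    · intro i hi j hj hij
      have hi' := (Finset.mem_filter.1 hi).2.1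
      have hj' := (Finset.mem_filter.1 hj).2.1
      have := hinj (i + 1) (j + 1) hi' hj' hij
      omega
  have hcard : (insert k (B1 ∪ B2)).card < (range m).card := by
    have h1 := Finset.card_insert_le k (B1 ∪ B2)
    have h2 := Finset.card_union_le B1 B2
    rw [Finset.card_range]
    omega
  obtain ⟨i, him, hi⟩ := Finset.exists_mem_notMem_of_card_lt_card hcard
  rw [Finset.mem_range] at him
  have hik : i ≠ k := fun h => hi (by simp [h])
  have hi1 : ¬ R.Adj a (f i) := by
    intro h
    exact hi (Finset.mem_insert_of_mem (Finset.mem_union_left _ (by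
      rw [hB1, Finset.mem_filter, Finset.mem_range]; exact ⟨him, h⟩)))
  have hi2 : i + 1 < m → ¬ R.Adj b (f (i + 1)) := by
    intro hlt h
    exact hi (Finset.mem_insert_of_mem (Finset.mem_union_right _ (by
      rw [hB2, Finset.mem_filter, Finset.mem_range]; exact ⟨him, hlt, h⟩)))
  obtain ⟨p, q, hpq⟩ : ∃ p q, (i < k ∧ p = i + 1 ∧ q = k) ∨ (k < i ∧ p = k + 1 ∧ q = i) := by
    rcases lt_or_gt_of_ne hik with h | h
    · exact ⟨i + 1, k, Or.inl ⟨h, rfl, rfl⟩⟩
    · exact ⟨k + 1, i, Or.inr ⟨h, rfl, rfl⟩⟩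
  refine ⟨fun j => f (if p ≤ j ∧ j ≤ q then p + q - j else j), ?_, ?_, ?_⟩
  · intro x y hx hy hxy
    simp only at hxy
    have := hinj _ _ (by split_ifs <;> omega) (by split_ifs <;> omega) hxy
    split_ifs at this <;> omega
  · simp only
    rw [if_neg (by omega)]
    exact h0
  · intro j hj
    simp only
    by_cases hA : p ≤ j ∧ j + 1 ≤ q
    · rw [if_pos (by omega), if_pos (by omega)]
      have := hold (p + q - (j + 1)) (by omega) (by omega)
      have e : p + q - (j + 1) + 1 = p + q - j := by omega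
      rw [e] at this
      exact fun h => this h.symm
    · by_cases hB : j + 1 = p
      · rw [if_neg (by omega), if_pos (by omega)]
        rcases hpq with ⟨h1, h2, h3⟩ | ⟨h1, h2, h3⟩
        · have e1 : j = i := by omega
          have e2 : p + q - (j + 1) = k := by omega
          rw [e1] at e2 ⊢
          rw [e2, hka]
          exact fun h => hi1 h.symm
        · have e1 : j = k := by omega
          have e2 : p + q - (j + 1) = i := by omega
          rw [e1] at e2 ⊢
          rw [e2, hka]
          exact hi1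
      · by_cases hC : j = q
        · rw [if_pos (by omega), if_neg (by omega)]
          rcases hpq with ⟨h1, h2, h3⟩ | ⟨h1, h2, h3⟩
          · have e1 : p + q - j = i + 1 := by omega
            have e2 : j + 1 = k + 1 := by omega
            rw [e1, e2, hkb]
            exact fun h => hi2 (by omega) h.symm
          · have e1 : p + q - j = k + 1 := by omega
            have e2 : j + 1 = i + 1 := by omega
            rw [e1, e2, hkb]
            exact hi2 (by omega)
        · rw [if_neg (by omega), if_neg (by omega)]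
          exact hold j hj (by omega)

lemma step [Fintype L] [DecidableEq L] (R R' : SimpleGraph L) [DecidableRel R.Adj] (m : ℕ)
    (s : L) (a b : L)
    (hR : ∀ x y, R.Adj x y → R'.Adj x y ∨ (x = a ∧ y = b) ∨ (x = b ∧ y = a))
    (hdeg : R.degree a + R.degree b + 2 ≤ m) (f : ℕ → L) (hf : GoodOrder R' m s f) :
    ∃ g, GoodOrder R m s g := by
  by_cases h1 : ∃ k, k + 1 < m ∧ f k = a ∧ f (k + 1) = b
  · obtain ⟨k, hk, hka, hkb⟩ := h1
    exact step_aux R R' m s a b hR hdeg f hf k hk hka hkb
  by_cases h2 : ∃ k, k + 1 < m ∧ f k = b ∧ f (k + 1) = a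
  · obtain ⟨k, hk, hka, hkb⟩ := h2
    refine step_aux R R' m s b a ?_ (by omega) f hf k hk hka hkb
    intro x y h
    rcases hR x y h with h | h | h
    · exact Or.inl h
    · exact Or.inr (Or.inr h)
    · exact Or.inr (Or.inl h)
  refine ⟨f, hf.1, hf.2.1, fun i hi hadj => ?_⟩
  rcases hR _ _ hadj with h | ⟨h3, h4⟩ | ⟨h3, h4⟩
  · exact hf.2.2 i hi h
  · exact h1 ⟨i, hi, h3, h4⟩
  · exact h2 ⟨i, hi, h3, h4⟩

lemma exists_listing [Fintype L] [DecidableEq L] (s : L) :
    ∃ f, GoodOrder (⊥ : SimpleGraph L) (Fintype.card L) s f := by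
  have hpos : 0 < Fintype.card L := Fintype.card_pos_iff.2 ⟨s⟩
  set e := Fintype.equivFin L
  set e' := e.trans (Equiv.swap (e s) ⟨0, hpos⟩)
  refine ⟨fun i => if h : i < Fintype.card L then e'.symm ⟨i, h⟩ else s, ?_, ?_, ?_⟩
  · intro i j hi hj hij
    simp only [dif_pos hi, dif_pos hj] at hij
    have := e'.symm.injective hij
    simpa using this
  · simp only [dif_pos hpos]
    rw [Equiv.symm_apply_eq]
    simp [e']
  · intro i _ h
    exact h

/-- If every nonempty subgraph of `T` has an edge with small degree sum, then there is a good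
ordering. -/
lemma closure [Fintype L] [DecidableEq L] (T : SimpleGraph L) (s : L)
    (hred : ∀ R : SimpleGraph L, R ≤ T → R ≠ ⊥ →
      ∃ a b, R.Adj a b ∧ (∀ [DecidableRel R.Adj], R.degree a + R.degree b + 2 ≤ Fintype.card L)) :
    ∀ (N : ℕ) (R : SimpleGraph L), R ≤ T → R.edgeSet.ncard ≤ N →
      ∃ f, GoodOrder R (Fintype.card L) s f := by
  classical
  intro N
  induction N with
  | zero =>
    intro R _ hc
    have : R = ⊥ := by
      rw [← SimpleGraph.edgeSet_eq_empty]
      exact (Set.ncard_eq_zero (Set.toFinite _)).1 (by omega)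
    subst this
    exact exists_listing s
  | succ N ih =>
    intro R hR hc
    by_cases hbot : R = ⊥
    · subst hbot
      exact exists_listing s
    obtain ⟨a, b, hab, hdeg⟩ := hred R hR hbot
    obtain ⟨f, hf⟩ := ih (R.deleteEdges {s(a, b)}) ((SimpleGraph.deleteEdges_le _).trans hR) (by
      rw [SimpleGraph.edgeSet_deleteEdges]
      have hmem : s(a, b) ∈ R.edgeSet := hab
      have := Set.ncard_sdiff_singleton_lt_of_mem hmem (Set.toFinite _)
      omega)
    refine step R _ _ s a b ?_ hdeg f hf
    intro x y hxy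
    by_cases h : s(x, y) = s(a, b)
    · rw [Sym2.eq_iff] at h
      exact Or.inr h
    · left
      rw [SimpleGraph.deleteEdges_adj]
      exact ⟨hxy, by simpa using h⟩

end Order


/-! ## The conflict graph -/

section Conflict

set_option linter.unusedSectionVars false

variable {V : Type*} [Fintype V] [DecidableEq V] {K : Type*} [Fintype K] [DecidableEq K]

/-- The conflict graph on the classes: `inl j` is the class of `u_j'`, and `g i` is the class of
`u_i`. -/
def conf (G : SimpleGraph V) (g : V → V ⊕ K) : SimpleGraph (V ⊕ K) where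
  Adj a b := a ≠ b ∧ ∃ i j, G.Adj i j ∧ ((a = g i ∧ b = g j) ∨ (a = g i ∧ b = Sum.inl j) ∨
    (a = Sum.inl i ∧ b = g j))
  symm := ⟨by
    rintro a b ⟨hab, i, j, hij, h⟩
    refine ⟨hab.symm, j, i, hij.symm, ?_⟩
    rcases h with ⟨h1, h2⟩ | ⟨h1, h2⟩ | ⟨h1, h2⟩
    · exact Or.inl ⟨h2, h1⟩
    · exact Or.inr (Or.inr ⟨h2, h1⟩)
    · exact Or.inr (Or.inl ⟨h2, h1⟩)⟩
  loopless := ⟨fun _ h => h.1 rfl⟩

variable (G : SimpleGraph V) [DecidableRel G.Adj] (g : V → V ⊕ K)

/-- The three kinds of neighbours. -/
def N1 (a : V ⊕ K) : Finset (V ⊕ K) :=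
  (univ.filter (fun i => a = g i)).biUnion (fun i => (G.neighborFinset i).image g)

def N2 (a : V ⊕ K) : Finset (V ⊕ K) :=
  (univ.filter (fun i => a = g i)).biUnion (fun i => (G.neighborFinset i).image Sum.inl)

def N3 (a : V ⊕ K) : Finset (V ⊕ K) :=
  (univ.filter (fun i => a = Sum.inl i)).biUnion (fun i => (G.neighborFinset i).image g)

variable {G g}

lemma card_aux {α β : Type*} [DecidableEq β] (S : Finset α) (hS : S.card ≤ 1) (F : α → Finset β)
    (d : ℕ) (hF : ∀ i, (F i).card ≤ d) : (S.biUnion F).card ≤ d := by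
  calc (S.biUnion F).card ≤ S.card * d := Finset.card_biUnion_le_card_mul _ _ _ (fun i _ => hF i)
    _ ≤ 1 * d := Nat.mul_le_mul_right _ hS
    _ = d := one_mul _

lemma card_N1 (hg : Function.Injective g) (a : V ⊕ K) : (N1 G g a).card ≤ G.maxDegree := by
  refine card_aux _ ?_ _ _ ?_
  · rw [Finset.card_le_one]
    intro x hx y hy
    simp only [Finset.mem_filter, Finset.mem_univ, true_and] at hx hy
    exact hg (hx.symm.trans hy)
  · intro i
    exact Finset.card_image_le.trans (by simpa using G.degree_le_maxDegree i)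

lemma card_N2 (hg : Function.Injective g) (a : V ⊕ K) : (N2 G g a).card ≤ G.maxDegree := by
  refine card_aux _ ?_ _ _ ?_
  · rw [Finset.card_le_one]
    intro x hx y hy
    simp only [Finset.mem_filter, Finset.mem_univ, true_and] at hx hy
    exact hg (hx.symm.trans hy)
  · intro i
    exact Finset.card_image_le.trans (by simpa using G.degree_le_maxDegree i)

lemma card_N3 (a : V ⊕ K) : (N3 G g a).card ≤ G.maxDegree := by
  refine card_aux _ ?_ _ _ ?_
  · rw [Finset.card_le_one]
    intro x hx y hy
    simp only [Finset.mem_filter, Finset.mem_univ, true_and] at hx hy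
    exact Sum.inl_injective (hx.symm.trans hy)
  · intro i
    exact Finset.card_image_le.trans (by simpa using G.degree_le_maxDegree i)

lemma conf_adj_cases {a b : V ⊕ K} (h : (conf G g).Adj a b) :
    b ∈ N1 G g a ∨ b ∈ N2 G g a ∨ b ∈ N3 G g a := by
  obtain ⟨_, i, j, hij, h⟩ := h
  rcases h with ⟨h1, h2⟩ | ⟨h1, h2⟩ | ⟨h1, h2⟩
  · left
    rw [N1, Finset.mem_biUnion]
    exact ⟨i, by simp [h1], by rw [Finset.mem_image]; exact ⟨j, by simpa using hij, h2.symm⟩⟩
  · right; left
    rw [N2, Finset.mem_biUnion]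
    exact ⟨i, by simp [h1], by rw [Finset.mem_image]; exact ⟨j, by simpa using hij, h2.symm⟩⟩
  · right; right
    rw [N3, Finset.mem_biUnion]
    exact ⟨i, by simp [h1], by rw [Finset.mem_image]; exact ⟨j, by simpa using hij, h2.symm⟩⟩

/-- `a` is a class of the form `{u_j'}`. -/
def IsP (g : V → V ⊕ K) (a : V ⊕ K) : Prop := (∃ j, a = Sum.inl j) ∧ ∀ i, a ≠ g i

/-- `a` is a merged class. -/
def IsH (g : V → V ⊕ K) (a : V ⊕ K) : Prop := (∃ j, a = Sum.inl j) ∧ ∃ i, a = g i

omit [Fintype V] [DecidableEq V] [Fintype K] [DecidableEq K] in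
lemma cls_cases (a : V ⊕ K) : IsP g a ∨ IsH g a ∨ ∃ k, a = Sum.inr k := by
  rcases a with j | k
  · by_cases h : ∃ i, Sum.inl j = g i
    · exact Or.inr (Or.inl ⟨⟨j, rfl⟩, h⟩)
    · push Not at h
      exact Or.inl ⟨⟨j, rfl⟩, h⟩
  · exact Or.inr (Or.inr ⟨k, rfl⟩)

lemma N1_empty_of_P {a : V ⊕ K} (h : ∀ i, a ≠ g i) : N1 G g a = ∅ := by
  refine Finset.eq_empty_of_forall_notMem fun b hb => ?_
  rw [N1, Finset.mem_biUnion] at hb
  obtain ⟨i, hi, _⟩ := hb
  simp only [Finset.mem_filter, Finset.mem_univ, true_and] at hi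
  exact absurd hi (h i)

lemma N2_empty_of_P {a : V ⊕ K} (h : ∀ i, a ≠ g i) : N2 G g a = ∅ := by
  refine Finset.eq_empty_of_forall_notMem fun b hb => ?_
  rw [N2, Finset.mem_biUnion] at hb
  obtain ⟨i, hi, _⟩ := hb
  simp only [Finset.mem_filter, Finset.mem_univ, true_and] at hi
  exact absurd hi (h i)

lemma N3_empty_of_inr {k : K} : N3 G g (Sum.inr k) = ∅ := by
  refine Finset.eq_empty_of_forall_notMem fun b hb => ?_
  rw [N3, Finset.mem_biUnion] at hb
  obtain ⟨i, hi, _⟩ := hb
  simp at hi

lemma deg_le (R : SimpleGraph (V ⊕ K)) [DecidableRel R.Adj] (a : V ⊕ K) (S : Finset (V ⊕ K))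
    (h : ∀ b, R.Adj a b → b ∈ S) : R.degree a ≤ S.card := by
  rw [← SimpleGraph.card_neighborFinset_eq_degree]
  apply Finset.card_le_card
  intro b hb
  exact h b (by simpa using hb)

lemma deg3 (hg : Function.Injective g) (R : SimpleGraph (V ⊕ K)) [DecidableRel R.Adj]
    (hR : R ≤ conf G g) (a : V ⊕ K) : R.degree a ≤ 3 * G.maxDegree := by
  have h1 := deg_le R a (N1 G g a ∪ (N2 G g a ∪ N3 G g a)) (fun b hb => by
    rcases conf_adj_cases (hR hb) with h | h | h
    · exact Finset.mem_union_left _ h
    · exact Finset.mem_union_right _ (Finset.mem_union_left _ h)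
    · exact Finset.mem_union_right _ (Finset.mem_union_right _ h))
  have h2 := Finset.card_union_le (N1 G g a) (N2 G g a ∪ N3 G g a)
  have h3 := Finset.card_union_le (N2 G g a) (N3 G g a)
  have h4 := card_N1 (G := G) hg a
  have h5 := card_N2 (G := G) hg a
  have h6 := card_N3 (G := G) (g := g) a
  omega

lemma deg2 (hg : Function.Injective g) (R : SimpleGraph (V ⊕ K)) [DecidableRel R.Adj]
    (hR : R ≤ conf G g) (k : K) : R.degree (Sum.inr k) ≤ 2 * G.maxDegree := by
  have h1 := deg_le R (Sum.inr k) (N1 G g (Sum.inr k) ∪ N2 G g (Sum.inr k)) (fun b hb => by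
    rcases conf_adj_cases (hR hb) with h | h | h
    · exact Finset.mem_union_left _ h
    · exact Finset.mem_union_right _ h
    · rw [N3_empty_of_inr] at h
      exact absurd h (Finset.notMem_empty _))
  have h2 := Finset.card_union_le (N1 G g (Sum.inr k)) (N2 G g (Sum.inr k))
  have h4 := card_N1 (G := G) hg (Sum.inr k)
  have h5 := card_N2 (G := G) hg (Sum.inr k)
  omega

lemma deg1 (R : SimpleGraph (V ⊕ K)) [DecidableRel R.Adj]
    (hR : R ≤ conf G g) (a : V ⊕ K) (ha : IsP g a) : R.degree a ≤ G.maxDegree := by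
  have h1 := deg_le R a (N3 G g a) (fun b hb => by
    rcases conf_adj_cases (hR hb) with h | h | h
    · rw [N1_empty_of_P ha.2] at h
      exact absurd h (Finset.notMem_empty _)
    · rw [N2_empty_of_P ha.2] at h
      exact absurd h (Finset.notMem_empty _)
    · exact h)
  exact h1.trans (card_N3 a)

lemma not_P_of_P {R : SimpleGraph (V ⊕ K)} (hR : R ≤ conf G g) {a b : V ⊕ K} (hab : R.Adj a b)
    (ha : IsP g a) : ¬ IsP g b := by
  intro hb
  obtain ⟨_, i, j, _, h⟩ := hR hab
  rcases h with ⟨h1, _⟩ | ⟨h1, _⟩ | ⟨_, h2⟩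
  · exact ha.2 i h1
  · exact ha.2 i h1
  · exact hb.2 j h2

lemma hred (hg : Function.Injective g) (hD : 2 ≤ G.maxDegree)
    (hn : G.maxDegree + 1 ≤ Fintype.card V) (hK : Fintype.card K = G.maxDegree ^ 2 + 1)
    (H : Finset (V ⊕ K)) (hH : ∀ a, IsH g a → a ∈ H)
    (hHc : H.card ≤ Fintype.card V - (G.maxDegree ^ 2 + 1)) :
    ∀ R : SimpleGraph (V ⊕ K), R ≤ conf G g → R ≠ ⊥ → ∃ a b, R.Adj a b ∧
      (∀ [DecidableRel R.Adj], R.degree a + R.degree b + 2 ≤ Fintype.card (V ⊕ K)) := by
  classical
  intro R hR hbot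
  have hsq : 2 * G.maxDegree ≤ G.maxDegree ^ 2 := by nlinarith
  rw [Fintype.card_sum, hK]
  set n := Fintype.card V
  set D := G.maxDegree with hDdef
  by_cases h1 : ∃ k b, R.Adj (Sum.inr k) b ∧ IsP g b
  · obtain ⟨k, b, hab, hb⟩ := h1
    refine ⟨Sum.inr k, b, hab, fun {_} => ?_⟩
    have e1 := deg2 hg R hR k
    have e2 := deg1 R hR b hb
    omega
  by_cases h2 : ∃ k l, R.Adj (Sum.inr k) (Sum.inr l)
  · obtain ⟨k, l, hab⟩ := h2
    refine ⟨Sum.inr k, Sum.inr l, hab, fun {_} => ?_⟩
    have e1 := deg2 hg R hR k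
    have e2 := deg2 hg R hR l
    have key : ∀ k, R.degree (Sum.inr k) ≤ D + H.card := by
      intro k
      have e := deg_le R (Sum.inr k) (N1 G g (Sum.inr k) ∪ H) (fun b hb => by
        rcases conf_adj_cases (hR hb) with h | h | h
        · exact Finset.mem_union_left _ h
        · apply Finset.mem_union_right
          rcases cls_cases (g := g) b with hb1 | hb1 | ⟨l, rfl⟩
          · exact absurd ⟨k, b, hb, hb1⟩ h1
          · exact hH b hb1
          · rw [N2, Finset.mem_biUnion] at h
            obtain ⟨i, _, hi⟩ := h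
            simp at hi
        · rw [N3_empty_of_inr] at h
          exact absurd h (Finset.notMem_empty _))
      have e' := Finset.card_union_le (N1 G g (Sum.inr k)) H
      have e'' := card_N1 (G := G) hg (Sum.inr k)
      omega
    have e3 := key k
    have e4 := key l
    omega
  by_cases h3 : ∃ a b, R.Adj a b ∧ IsH g a ∧ ¬ IsH g b
  · obtain ⟨a, b, hab, ha, hb⟩ := h3
    refine ⟨a, b, hab, fun {_} => ?_⟩
    have e1 := deg3 hg R hR a
    have e2 : R.degree b ≤ H.card := by
      refine deg_le R b H (fun c hc => ?_)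
      rcases cls_cases (g := g) c with hc1 | hc1 | ⟨l, rfl⟩
      · rcases cls_cases (g := g) b with hb1 | hb1 | ⟨l, rfl⟩
        · exact absurd hc1 (not_P_of_P hR hc hb1)
        · exact absurd hb1 hb
        · exact absurd ⟨l, c, hc, hc1⟩ h1
      · exact hH c hc1
      · rcases cls_cases (g := g) b with hb1 | hb1 | ⟨l', rfl⟩
        · exact absurd ⟨l, b, hc.symm, hb1⟩ h1
        · exact absurd hb1 hb
        · exact absurd ⟨l', l, hc⟩ h2
    have e3 : 0 < H.card := Finset.card_pos.2 ⟨a, hH a ha⟩
    omega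
  · obtain ⟨a, b, hab⟩ := SimpleGraph.ne_bot_iff_exists_adj.1 hbot
    have key : ∀ a b, R.Adj a b → IsH g a := by
      intro a b hab
      rcases cls_cases (g := g) a with ha | ha | ⟨k, rfl⟩
      · rcases cls_cases (g := g) b with hb | hb | ⟨l, rfl⟩
        · exact absurd hb (not_P_of_P hR hab ha)
        · refine absurd ⟨b, a, hab.symm, hb, ?_⟩ h3
          intro h
          obtain ⟨_, i, hi⟩ := h
          exact ha.2 i hi
        · exact absurd ⟨l, a, hab.symm, ha⟩ h1
      · exact ha
      · rcases cls_cases (g := g) b with hb | hb | ⟨l, rfl⟩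
        · exact absurd ⟨k, b, hab, hb⟩ h1
        · refine absurd ⟨b, _, hab.symm, hb, ?_⟩ h3
          intro h
          obtain ⟨⟨j, hj⟩, _⟩ := h
          cases hj
        · exact absurd ⟨k, l, hab⟩ h2
    refine ⟨a, b, hab, fun {_} => ?_⟩
    have e1 := deg3 hg R hR a
    have e2 := deg3 hg R hR b
    have e3 : R.degree a ≤ H.card := deg_le R a H (fun c hc => hH c (key c a hc.symm))
    have e4 : R.degree b ≤ H.card := deg_le R b H (fun c hc => hH c (key c b hc.symm))
    have e5 : 0 < H.card := Finset.card_pos.2 ⟨a, hH a (key a b hab)⟩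
    omega

end Conflict

/-! ## Labelings of the Mycielski graph -/

section Label

variable {V : Type*} {G : SimpleGraph V}

lemma edist_two {u v : V} (h : G.edist u v = 2) :
    u ≠ v ∧ ¬ G.Adj u v ∧ ∃ k, G.Adj u k ∧ G.Adj v k := by
  obtain ⟨h1, h2, k, hk⟩ := SimpleGraph.edist_eq_two_iff.1 h
  exact ⟨h1, h2, k, SimpleGraph.mem_commonNeighbors _ |>.1 hk⟩

/-- The labeling with `u_i ↦ a i`, `u_i' ↦ b i`, `w ↦ 0`. -/
def lab (a b : V → ℕ) : Option (V ⊕ V) → ℕ
  | none => 0
  | some (Sum.inl i) => a i
  | some (Sum.inr j) => b j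

lemma isL21_lab (a b : V → ℕ)
    (h1 : ∀ i j, G.Adj i j → a i + 2 ≤ a j ∨ a j + 2 ≤ a i)
    (h2 : ∀ i j, G.Adj i j → a i + 2 ≤ b j ∨ b j + 2 ≤ a i)
    (h3 : ∀ j, 2 ≤ b j)
    (h4 : ∀ i j k, i ≠ j → ¬ G.Adj i j → G.Adj i k → G.Adj j k → a i ≠ a j)
    (h5 : ∀ i j k, ¬ G.Adj i j → G.Adj i k → G.Adj j k → a i ≠ b j)
    (h6 : ∀ i j, i ≠ j → b i ≠ b j)
    (h7 : ∀ i, 1 ≤ a i) :
    IsL21 (mycielski G) (lab a b) := by
  refine ⟨?_, ?_⟩
  · rintro (_ | i | i) (_ | j | j) h
    · exact absurd h (by exact id)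
    · exact absurd h (by exact id)
    · left; simpa [lab] using h3 j
    · exact absurd h (by exact id)
    · exact h1 i j h
    · exact h2 i j h
    · right; simpa [lab] using h3 i
    · have := h2 j i (SimpleGraph.Adj.symm (G := G) (show G.Adj i j from h))
      exact this.symm
    · exact absurd h (by exact id)
  · intro x y hxy
    obtain ⟨hne, hnadj, k, hk1, hk2⟩ := edist_two hxy
    rcases x with _ | i | i <;> rcases y with _ | j | j
    · exact absurd rfl hne
    · have := h7 j
      simp only [lab]; omega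
    · have := h3 j
      simp only [lab]; omega
    · have := h7 i
      simp only [lab]; omega
    · have hij : i ≠ j := fun h => hne (by rw [h])
      rcases k with _ | k | k
      · exact absurd hk1 (by exact id)
      · exact h4 i j k hij hnadj hk1 hk2
      · exact h4 i j k hij hnadj hk1 hk2
    · rcases k with _ | k | k
      · exact absurd hk1 (by exact id)
      · exact h5 i j k hnadj hk1 hk2
      · exact absurd hk2 (by exact id)
    · have := h3 i
      simp only [lab]; omega
    · rcases k with _ | k | k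
      · exact absurd hk2 (by exact id)
      · exact (h5 j i k (fun h => hnadj (show G.Adj i j from h.symm)) hk2 hk1).symm
      · exact absurd hk1 (by exact id)
    · exact h6 i j (fun h => hne (by rw [h]))

lemma lab_le (a b : V → ℕ) (k : ℕ) (ha : ∀ i, a i ≤ k) (hb : ∀ i, b i ≤ k) (x : Option (V ⊕ V)) :
    lab a b x ≤ k := by
  rcases x with _ | i | i
  · exact Nat.zero_le _
  · exact ha i
  · exact hb i

/-- The case of maximum degree at most `1`. -/
lemma small_degree [Fintype V] [DecidableRel G.Adj] (hD : G.maxDegree ≤ 1) :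
    ∃ f, IsL21 (mycielski G) f ∧ ∀ x, f x ≤ Fintype.card V + 1 + G.maxDegree ^ 2 := by
  classical
  set n := Fintype.card V with hn
  let e := Fintype.equivFin V
  let φ : V → ℕ := fun x => (e x : ℕ)
  have hφlt : ∀ x, φ x < n := fun x => (e x).2
  have hφinj : ∀ x y, φ x = φ y → x = y := fun x y h => e.injective (Fin.ext h)
  have huniq : ∀ x y z, G.Adj x y → G.Adj x z → y = z := by
    intro x y z hy hz
    have h1 := (G.degree_le_maxDegree x).trans hD
    rw [← SimpleGraph.card_neighborFinset_eq_degree, Finset.card_le_one] at h1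
    exact h1 y (by simpa using hy) z (by simpa using hz)
  let a : V → ℕ := fun x => if ∃ y, G.Adj x y ∧ φ y < φ x then n + 2 else 1
  let b : V → ℕ := fun x => φ x + 2
  have ha : ∀ x y, G.Adj x y → (φ x < φ y ∧ a x = 1) ∨ (φ y < φ x ∧ a x = n + 2) := by
    intro x y hxy
    by_cases h : φ y < φ x
    · right
      exact ⟨h, if_pos ⟨y, hxy, h⟩⟩
    · left
      have hne : φ x ≠ φ y := fun h' => hxy.ne (hφinj _ _ h')
      refine ⟨by omega, if_neg ?_⟩
      rintro ⟨z, hz, hlt⟩
      rw [huniq x z y hz hxy] at hlt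
      exact h hlt
  refine ⟨lab a b, isL21_lab a b ?_ ?_ ?_ ?_ ?_ ?_ ?_, lab_le a b _ ?_ ?_⟩
  · intro i j hij
    have h1 := ha i j hij
    have h2 := ha j i hij.symm
    have h3 := hφlt i
    omega
  · intro i j hij
    have h1 := ha i j hij
    have h3 := hφlt i
    simp only [b]
    omega
  · intro j
    simp only [b]
    omega
  · intro i j k hij _ hik hjk
    exact absurd (huniq k i j hik.symm hjk.symm) hij
  · intro i j k _ hik _
    have h1 := ha i k hik
    have h3 := hφlt j
    simp only [b]
    omega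
  · intro i j hij h
    exact hij (hφinj _ _ (by simpa [b] using h))
  · intro i
    simp only [a]
    split_ifs <;> omega
  · intro i
    by_cases h : ∃ y, G.Adj i y ∧ φ y < φ i
    · obtain ⟨y, hy, _⟩ := h
      have h1 : 0 < G.degree i := (G.degree_pos_iff_exists_adj i).2 ⟨y, hy⟩
      have h2 := G.degree_le_maxDegree i
      have h3 : G.maxDegree = 1 := by omega
      rw [h3]
      simp only [a]
      split_ifs <;> omega
    · simp only [a]
      rw [if_neg h]
      omega
  · intro i
    have := hφlt i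
    simp only [b]
    omega

/-- One Mycielski step. -/
lemma myc_step {V : Type*} [Finite V] (G : SimpleGraph V) (k : ℕ)
    (h : ∃ f, IsL21 G f ∧ ∀ x, f x ≤ k) :
    ∃ f, IsL21 (mycielski G) f ∧ ∀ x, f x ≤ k + Nat.card V + 1 := by
  classical
  obtain ⟨f, hf, hfk⟩ := h
  have := Fintype.ofFinite V
  rw [Nat.card_eq_fintype_card]
  set n := Fintype.card V with hn
  have hdist : ∀ i j k, i ≠ j → ¬ G.Adj i j → G.Adj i k → G.Adj j k → f i ≠ f j := by
    intro i j k hij hn hik hjk
    exact hf.2 i j (SimpleGraph.edist_eq_two_iff.2 ⟨hij, hn, k,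
      (SimpleGraph.mem_commonNeighbors _).2 ⟨hik, hjk⟩⟩)
  -- an enumeration whose first element has the largest label
  obtain ⟨φ, hφlt, hφinj, hφ0⟩ : ∃ φ : V → ℕ, (∀ x, φ x < n) ∧ (∀ x y, φ x = φ y → x = y) ∧
      ∀ x y, φ x = 0 → f y ≤ f x := by
    by_cases hV : Nonempty V
    · obtain ⟨x0, hx0⟩ := Finite.exists_max f
      have hpos : 0 < Fintype.card V := Fintype.card_pos
      let e := (Fintype.equivFin V).trans (Equiv.swap ((Fintype.equivFin V) x0) ⟨0, hpos⟩)
      refine ⟨fun x => (e x : ℕ), fun x => (e x).2, fun x y h => e.injective (Fin.ext h), ?_⟩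
      intro x y hx
      have : x = x0 := by
        apply e.injective
        apply Fin.ext
        simp only at hx
        rw [hx]
        simp [e]
      rw [this]
      exact hx0 y
    · rw [not_nonempty_iff] at hV
      exact ⟨fun _ => 0, fun x => isEmptyElim x, fun x => isEmptyElim x, fun x => isEmptyElim x⟩
  refine ⟨lab (fun x => f x + 1) (fun x => φ x + (k + 2)), isL21_lab _ _ ?_ ?_ ?_ ?_ ?_ ?_ ?_,
    lab_le _ _ _ ?_ ?_⟩
  · intro i j hij
    have := hf.1 i j hij
    omega
  · intro i j hij
    left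
    have h1 := hfk i
    rcases Nat.eq_zero_or_pos (φ j) with h0 | h0
    · have h2 := hφ0 j i h0
      have h3 := hf.1 i j hij
      have h4 := hfk j
      omega
    · omega
  · intro j
    omega
  · intro i j c h1 h2 h3 h4
    have := hdist i j c h1 h2 h3 h4
    omega
  · intro i j c _ _ _
    have := hfk i
    omega
  · intro i j hij h
    exact hij (hφinj i j (by omega))
  · intro i
    omega
  · intro i
    have := hfk i
    omega
  · intro i
    have := hφlt i
    omega

end Label

/-! ## Maximum degree at least `2` -/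

section Large

variable {V : Type*} [Fintype V] [DecidableEq V] (G : SimpleGraph V) [DecidableRel G.Adj]

/-- The vertices at distance at most `2`. -/
def near (i : V) : Finset V :=
  insert i (G.neighborFinset i ∪ (G.neighborFinset i).biUnion fun k => (G.neighborFinset k).erase i)

variable {G}

lemma card_near (i : V) : (near G i).card ≤ G.maxDegree ^ 2 + 1 := by
  have h1 := Finset.card_insert_le i
    (G.neighborFinset i ∪ (G.neighborFinset i).biUnion fun k => (G.neighborFinset k).erase i)
  have h2 := Finset.card_union_le (G.neighborFinset i)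
    ((G.neighborFinset i).biUnion fun k => (G.neighborFinset k).erase i)
  have h3 : ((G.neighborFinset i).biUnion fun k => (G.neighborFinset k).erase i).card ≤
      (G.neighborFinset i).card * (G.maxDegree - 1) := by
    apply Finset.card_biUnion_le_card_mul
    intro k hk
    rw [Finset.card_erase_of_mem (by simpa [SimpleGraph.adj_comm] using hk),
      SimpleGraph.card_neighborFinset_eq_degree]
    have := G.degree_le_maxDegree k
    omega
  rw [SimpleGraph.card_neighborFinset_eq_degree] at h2 h3
  have h4 := G.degree_le_maxDegree i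
  have h5 : G.degree i * (G.maxDegree - 1) ≤ G.maxDegree * (G.maxDegree - 1) :=
    Nat.mul_le_mul_right _ h4
  have h6 : G.maxDegree + G.maxDegree * (G.maxDegree - 1) = G.maxDegree ^ 2 := by
    rcases Nat.eq_zero_or_pos G.maxDegree with h | h
    · rw [h]; rfl
    · obtain ⟨d, hd⟩ : ∃ d, G.maxDegree = d + 1 := ⟨G.maxDegree - 1, by omega⟩
      rw [hd, Nat.add_sub_cancel]
      ring
  rw [near]
  omega

lemma not_mem_near {i j : V} (h : j ∉ near G i) :
    j ≠ i ∧ ¬ G.Adj i j ∧ ∀ k, G.Adj i k → ¬ G.Adj j k := by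
  rw [near, Finset.mem_insert, Finset.mem_union, Finset.mem_biUnion] at h
  push Not at h
  obtain ⟨h1, h2, h3⟩ := h
  refine ⟨h1, by simpa using h2, ?_⟩
  intro k hik hjk
  apply h3 k (by simpa using hik)
  rw [Finset.mem_erase]
  exact ⟨h1, by simpa using hjk.symm⟩

/-- The classes of the vertices `u_i`. -/
lemma exists_classes :
    ∃ (g : V → V ⊕ Fin (G.maxDegree ^ 2 + 1)) (H : Finset (V ⊕ Fin (G.maxDegree ^ 2 + 1))),
      Function.Injective g ∧ (∀ i j, g i = Sum.inl j → j ∉ near G i) ∧
      (∀ a, IsH g a → a ∈ H) ∧ H.card ≤ Fintype.card V - (G.maxDegree ^ 2 + 1) := by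
  classical
  set n := Fintype.card V with hn
  set r := n - (G.maxDegree ^ 2 + 1) with hr
  obtain ⟨S, _, hS⟩ := Finset.exists_subset_card_eq (s := (Finset.univ : Finset V)) (n := r)
    (by rw [Finset.card_univ]; omega)
  -- a system of distinct representatives
  obtain ⟨τ, hτinj, hτ⟩ := (Finset.all_card_le_biUnion_card_iff_exists_injective
    (fun i : S => (near G (i : V))ᶜ)).1 (by
      intro A
      rcases A.eq_empty_or_nonempty with rfl | ⟨i, hi⟩
      · simp
      · have h1 : A.card ≤ r := by
          rw [← hS]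
          calc A.card ≤ Fintype.card S := Finset.card_le_univ A
            _ = S.card := Fintype.card_coe S
        have h2 : r ≤ ((near G (i : V))ᶜ).card := by
          rw [Finset.card_compl]
          have := card_near (G := G) (i : V)
          omega
        exact (h1.trans h2).trans (Finset.card_le_card (Finset.subset_biUnion_of_mem
          (fun i : S => (near G (i : V))ᶜ) hi)))
  -- the other classes
  have hcard : Fintype.card {x : V // x ∉ S} ≤ Fintype.card (Fin (G.maxDegree ^ 2 + 1)) := by
    rw [Fintype.card_fin, Fintype.card_subtype_compl, Fintype.card_coe, hS]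
    omega
  obtain ⟨e⟩ := Function.Embedding.nonempty_of_card_le hcard
  let g : V → V ⊕ Fin (G.maxDegree ^ 2 + 1) := fun i =>
    if h : i ∈ S then Sum.inl (τ ⟨i, h⟩) else Sum.inr (e ⟨i, h⟩)
  have gin : ∀ i (h : i ∈ S), g i = Sum.inl (τ ⟨i, h⟩) := fun i h => dif_pos h
  have gout : ∀ i (h : i ∉ S), g i = Sum.inr (e ⟨i, h⟩) := fun i h => dif_neg h
  refine ⟨g, S.attach.image (fun i => Sum.inl (τ i)), ?_, ?_, ?_, ?_⟩
  · intro i j hij
    by_cases hi : i ∈ S <;> by_cases hj : j ∈ S
    · rw [gin i hi, gin j hj] at hij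
      have := hτinj (Sum.inl_injective hij)
      simpa using this
    · rw [gin i hi, gout j hj] at hij
      cases hij
    · rw [gout i hi, gin j hj] at hij
      cases hij
    · rw [gout i hi, gout j hj] at hij
      have := e.injective (Sum.inr_injective hij)
      simpa using this
  · intro i j hij
    by_cases hi : i ∈ S
    · rw [gin i hi] at hij
      have h1 := hτ ⟨i, hi⟩
      rw [Sum.inl_injective hij] at h1
      exact Finset.mem_compl.1 h1
    · rw [gout i hi] at hij
      cases hij
  · rintro a ⟨⟨j, hj⟩, i, hi⟩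
    by_cases hiS : i ∈ S
    · rw [gin i hiS] at hi
      rw [Finset.mem_image]
      exact ⟨⟨i, hiS⟩, Finset.mem_attach _ _, hi.symm⟩
    · rw [gout i hiS, hj] at hi
      cases hi
  · exact Finset.card_image_le.trans (by rw [Finset.card_attach, hS])

lemma large_degree (hD : 2 ≤ G.maxDegree) :
    ∃ f, IsL21 (mycielski G) f ∧ ∀ x, f x ≤ Fintype.card V + 1 + G.maxDegree ^ 2 := by
  classical
  obtain ⟨g, H, hg, hnear, hH, hHc⟩ := exists_classes (G := G)
  have hne : Nonempty V := by
    by_contra h
    rw [not_nonempty_iff] at h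
    have := SimpleGraph.maxDegree_of_subsingleton (G := G)
    omega
  have hn : G.maxDegree + 1 ≤ Fintype.card V := G.maxDegree_lt_card_verts
  obtain ⟨F, hFinj, hF0, hFgood⟩ := closure (conf G g) (Sum.inr 0)
    (hred hg hD hn (by simp) H hH hHc) _ (conf G g) le_rfl le_rfl
  set m := Fintype.card (V ⊕ Fin (G.maxDegree ^ 2 + 1)) with hm
  have hm' : m = Fintype.card V + (G.maxDegree ^ 2 + 1) := by
    rw [hm, Fintype.card_sum, Fintype.card_fin]
  -- positions
  have hsurj : ∀ x, ∃ i, i < m ∧ F i = x := by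
    intro x
    have h1 : ((range m).image F) = Finset.univ := by
      apply Finset.eq_univ_of_card
      rw [Finset.card_image_of_injOn, Finset.card_range]
      intro i hi j hj hij
      simp only [Finset.coe_range, Set.mem_Iio] at hi hj
      exact hFinj i j hi hj hij
    have h2 : x ∈ (range m).image F := by rw [h1]; exact Finset.mem_univ _
    rw [Finset.mem_image] at h2
    obtain ⟨i, hi, hix⟩ := h2
    exact ⟨i, Finset.mem_range.1 hi, hix⟩
  choose pos hpos hFpos using hsurj
  have posinj : ∀ x y, pos x = pos y → x = y := by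
    intro x y h
    rw [← hFpos x, ← hFpos y, h]
  have posadj : ∀ x y, (conf G g).Adj x y → pos x + 2 ≤ pos y ∨ pos y + 2 ≤ pos x := by
    intro x y hxy
    have h1 : pos x ≠ pos y := fun h => hxy.ne (posinj x y h)
    have h2 : pos y ≠ pos x + 1 := by
      intro h
      have h3 := hFgood (pos x) (by have := hpos y; omega)
      rw [← h, hFpos, hFpos] at h3
      exact h3 hxy
    have h3 : pos x ≠ pos y + 1 := by
      intro h
      have h3 := hFgood (pos y) (by have := hpos x; omega)
      rw [← h, hFpos, hFpos] at h3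
      exact h3 hxy.symm
    omega
  have pos0 : ∀ j, 1 ≤ pos (Sum.inl j) := by
    intro j
    by_contra h
    have h0 : pos (Sum.inl j) = 0 := by omega
    have h1 := hFpos (Sum.inl j)
    rw [h0, hF0] at h1
    cases h1
  refine ⟨lab (fun i => pos (g i) + 1) (fun j => pos (Sum.inl j) + 1),
    isL21_lab _ _ ?_ ?_ ?_ ?_ ?_ ?_ ?_, lab_le _ _ _ ?_ ?_⟩
  · intro i j hij
    have := posadj (g i) (g j) ⟨fun h => hij.ne (hg h), i, j, hij, Or.inl ⟨rfl, rfl⟩⟩
    omega
  · intro i j hij
    have := posadj (g i) (Sum.inl j) ⟨fun h => (not_mem_near (hnear i j h)).2.1 hij, i, j, hij,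
      Or.inr (Or.inl ⟨rfl, rfl⟩)⟩
    omega
  · intro j
    have := pos0 j
    omega
  · intro i j k hij _ _ _ h
    exact hij (hg (posinj _ _ (by omega)))
  · intro i j k _ hik hjk h
    have := posinj (g i) (Sum.inl j) (by omega)
    exact (not_mem_near (hnear i j this)).2.2 k hik hjk
  · intro i j hij h
    exact hij (Sum.inl_injective (posinj _ _ (by omega)))
  · intro i
    omega
  · intro i
    have := hpos (g i)
    omega
  · intro i
    have := hpos (Sum.inl i)
    omega

end Large

/-! ## The theorem -/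

lemma finite_MV (V : Type*) [Finite V] : ∀ t, Finite (MV V t)
  | 0 => by
    show Finite V
    infer_instance
  | t + 1 => by
    have := finite_MV V t
    show Finite (Option (MV V t ⊕ MV V t))
    infer_instance

lemma card_MV (V : Type*) [Finite V] (t : ℕ) :
    Nat.card (MV V t) + 1 = 2 ^ t * (Nat.card V + 1) := by
  induction t with
  | zero => simp [MV]
  | succ t ih =>
    have := finite_MV V t
    have h : Nat.card (MV V (t + 1)) = Nat.card (MV V t) + Nat.card (MV V t) + 1 := by
      show Nat.card (Option (MV V t ⊕ MV V t)) = _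
      rw [Finite.card_option, Nat.card_sum]
    rw [h, pow_succ]
    linarith

/-- There is an `L(2,1)`-labeling within the bound. -/
lemma exists_labeling {V : Type*} [Fintype V] (G : SimpleGraph V) [DecidableRel G.Adj] (t : ℕ) :
    ∃ f, IsL21 (iterM G (t + 1)) f ∧
      ∀ x, f x ≤ (2 ^ (t + 1) - 1) * (Fintype.card V + 1) + G.maxDegree ^ 2 := by
  classical
  induction t with
  | zero =>
    obtain ⟨f, hf, hfk⟩ : ∃ f, IsL21 (mycielski G) f ∧
        ∀ x, f x ≤ Fintype.card V + 1 + G.maxDegree ^ 2 := by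
      by_cases hD : 2 ≤ G.maxDegree
      · exact large_degree hD
      · exact small_degree (by omega)
    refine ⟨f, hf, fun x => ?_⟩
    have := hfk x
    simpa using this
  | succ t ih =>
    have := finite_MV V (t + 1)
    obtain ⟨f, hf, hfk⟩ := myc_step (iterM G (t + 1)) _ ih
    refine ⟨f, hf, fun x => (hfk x).trans (le_of_eq ?_)⟩
    have hc := card_MV V (t + 1)
    rw [Nat.card_eq_fintype_card (α := V)] at hc
    obtain ⟨p, hp⟩ : ∃ p, 2 ^ (t + 1) = p + 1 := ⟨2 ^ (t + 1) - 1, by
      have := Nat.one_le_two_pow (n := t + 1)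
      omega⟩
    have h2 : 2 ^ (t + 1 + 1) = 2 * p + 2 := by
      rw [pow_succ, hp]
      ring
    rw [hp] at hc ⊢
    rw [h2]
    have e1 : p + 1 - 1 = p := by omega
    have e2 : 2 * p + 2 - 1 = 2 * p + 1 := by omega
    have e3 : (2 * p + 1) * (Fintype.card V + 1) =
        p * (Fintype.card V + 1) + (p + 1) * (Fintype.card V + 1) := by ring
    rw [e1, e2, e3, ← hc]
    omega

/-- **Main theorem.** For every finite graph `G` of order `n ≥ 1` and maximum degree `Δ`, and every
`t ≥ 1`, the `t`-th iterated Mycielski graph `M^t(G)` has an `L(2,1)`-labeling with labels at most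
`(2^t - 1)(n + 1) + Δ²`, that is, `λ(M^t(G)) ≤ (2^t - 1)(n + 1) + Δ²`. -/
theorem result {V : Type*} [Fintype V] [Nonempty V] (G : SimpleGraph V) [DecidableRel G.Adj]
    (t : ℕ) (ht : 1 ≤ t) :
    lam (iterM G t) ≤ (2 ^ t - 1) * (Fintype.card V + 1) + G.maxDegree ^ 2 := by
  obtain ⟨s, rfl⟩ : ∃ s, t = s + 1 := ⟨t - 1, by omega⟩
  exact Nat.sInf_le (exists_labeling G s)

end Pool.Agent.Results.MP_f0917b_co.MycielskiBound
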